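import Mathlib
import Pool.Agent.H576.CE.StmG
import Pool.Agent.H673.CE.CELink2

/-!
helper578 for helper576 (project CE, MP_10effd_pr): hierarchical links with exceptional vertices (task LINK3).
-/

set_option autoImplicit false

namespace Pool.Agent.H578.CE

open Finset Pool.Agent.TH112.BW Pool.Agent.H576.CT Pool.Agent.H576.CE Pool.Agent.H673.CE

/-- nets of a set of vertices -/
theorem exists_net {V : Type} [Fintype V] [DecidableEq V] (G : SimpleGraph V) (F : Finset V) (t : ℕ) (ht : 1 ≤ t) :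
    ∃ (P : Finset V) (ν : V → V), P ⊆ F ∧ (∀ x ∈ P, ∀ y ∈ P, x ≠ y → t ≤ G.dist x y) ∧
      ∀ x ∈ F, ν x ∈ P ∧ G.dist x (ν x) < t := by
  classical
  obtain ⟨P, hP, hmax⟩ := exists_max_image
    (F.powerset.filter fun P => ∀ x ∈ P, ∀ y ∈ P, x ≠ y → t ≤ G.dist x y) (fun P => P.card)
    ⟨∅, by simp⟩
  rw [mem_filter, mem_powerset] at hP
  have hcov : ∀ x : V, ∃ y, x ∈ F → y ∈ P ∧ G.dist x y < t := by
    intro x
    by_cases hx : x ∈ F
    swap
    · exact ⟨x, fun h => absurd h hx⟩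
    by_contra hno
    have hno' : ∀ y ∈ P, t ≤ G.dist x y := by
      intro y hy
      by_contra hlt
      exact hno ⟨y, fun _ => ⟨hy, by omega⟩⟩
    have hxP : x ∉ P := by
      intro hxP
      have := hno' x hxP
      rw [SimpleGraph.dist_self] at this
      omega
    have h1 : insert x P ∈ F.powerset.filter fun P => ∀ x ∈ P, ∀ y ∈ P, x ≠ y → t ≤ G.dist x y := by
      rw [mem_filter, mem_powerset]
      refine ⟨insert_subset hx hP.1, fun a ha b hb hab => ?_⟩
      rw [mem_insert] at ha hb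
      rcases ha with rfl | ha
      · rcases hb with rfl | hb
        · exact absurd rfl hab
        · exact hno' b hb
      · rcases hb with rfl | hb
        · rw [SimpleGraph.dist_comm]
          exact hno' a ha
        · exact hP.2 a ha b hb hab
    have h2 := hmax _ h1
    rw [card_insert_of_notMem hxP] at h2
    omega
  choose ν hν using hcov
  exact ⟨P, ν, hP.1, hP.2, hν⟩

theorem ce_link3 : S_LINK3 := by
  intro V _ _ G hG u K F huK hstar J r1 hrad A hA hAne
  choose W hW using fun x y => hG.exists_walk_length_eq_dist x y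
  choose P ν hPF hP hν using fun j : ℕ => exists_net G F (2 ^ j) Nat.one_le_two_pow
  obtain ⟨p, hp0, hps⟩ : ∃ p : ℕ → V → V, (∀ v, p 0 v = v) ∧
      ∀ j v, p (j + 1) v = ν (j + 1) (p j v) :=
    ⟨fun j => Nat.rec (fun v => v) (fun i q v => ν (i + 1) (q v)) j, fun _ => rfl, fun _ _ => rfl⟩
  have hpF : ∀ j v, v ∈ F → p j v ∈ F := by
    intro j v hv
    induction j with
    | zero => rw [hp0]; exact hv
    | succ j ih => rw [hps]; exact hPF (j + 1) (hν (j + 1) _ ih).1
  have hdist : ∀ j v, v ∈ F → G.dist v (p j v) + 2 ≤ 2 ^ (j + 1) := by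
    intro j v hv
    induction j with
    | zero => rw [hp0, SimpleGraph.dist_self]; norm_num
    | succ j ih =>
      have h3 := hG.dist_triangle (u := v) (v := p j v) (w := p (j + 1) v)
      have h4 := (hν (j + 1) (p j v) (hpF j v hv)).2
      rw [← hps] at h4
      rw [pow_succ 2 (j + 1)]
      omega
  -- the nearby point of the cluster
  have hnear : ∀ v, ∃ y, v ∈ A → y ∈ K ∧ G.dist v y ≤ 1 := by
    intro v
    by_cases hv : v ∈ A
    · obtain ⟨y, hy, hvy⟩ := mem_nbd.1 (hA hv)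
      exact ⟨y, fun _ => ⟨hy, hvy⟩⟩
    · exact ⟨v, fun h => absurd h hv⟩
  choose yy hyy using hnear
  obtain ⟨B, hB⟩ : ∃ B : Finset V, ∀ v, v ∈ B ↔ v ∈ A ∧ v ∈ F := ⟨A ∩ F, fun v => mem_inter⟩
  have hBcard : B.card ≤ A.card := card_le_card fun v hv => ((hB v).1 hv).1
  obtain ⟨tg, htg1, htg2⟩ : ∃ tg : ℕ → V → V, (∀ j x, j < J → tg j x = ν (j + 1) x) ∧
      ∀ x, tg J x = u :=
    ⟨fun j x => if j < J then ν (j + 1) x else u, fun j x hj => if_pos hj,
      fun x => if_neg (lt_irrefl _)⟩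
  have hwalk : ∀ (j : ℕ) (q : V), ∃ w : G.Walk q (tg j q), j ≤ J → q ∈ B.image (p j) →
      w.length + 1 ≤ (r1 + 2) * 2 ^ j ∧ (j < J → w.length ≤ 2 * 2 ^ j) ∧
      ∀ z ∈ w.support, z ∈ nbd G K (2 ^ (j + 2)) := by
    intro j q
    by_cases hjq : j ≤ J ∧ q ∈ B.image (p j)
    swap
    · exact ⟨W q (tg j q), fun a b => absurd ⟨a, b⟩ hjq⟩
    obtain ⟨hj, hq⟩ := hjq
    obtain ⟨v, hvB, rfl⟩ := mem_image.1 hq
    obtain ⟨hv, hvF⟩ := (hB v).1 hvB
    obtain ⟨hyK, hvy⟩ := hyy v hv
    have hd := hdist j v hvF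
    have hp2 : 2 ^ (j + 2) = 4 * 2 ^ j := by rw [pow_add]; ring
    have hp1 : 2 ^ (j + 1) = 2 * 2 ^ j := by rw [pow_add]; ring
    have hp0' : 1 ≤ 2 ^ j := Nat.one_le_two_pow
    have hr : (r1 + 2) * 2 ^ j = r1 * 2 ^ j + 2 * 2 ^ j := by ring
    rcases hj.lt_or_eq with h | h
    · refine ⟨W (p j v) (tg j (p j v)), fun _ _ => ?_⟩
      have h3 := (hν (j + 1) (p j v) (hpF j v hvF)).2
      have h4 : (W (p j v) (tg j (p j v))).length = G.dist (p j v) (ν (j + 1) (p j v)) := by
        rw [hW, htg1 j _ h]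
      refine ⟨?_, fun _ => ?_, fun z hz => ?_⟩
      · rw [h4, hr]
        omega
      · rw [h4]
        omega
      · have h5 := Pool.Agent.H672.ct_take _ hz
        rw [h4] at h5
        rw [mem_nbd]
        refine ⟨yy v, hyK, ?_⟩
        have h6 := hG.dist_triangle (u := z) (v := p j v) (w := yy v)
        have h7 := hG.dist_triangle (u := p j v) (v := v) (w := yy v)
        rw [SimpleGraph.dist_comm (u := z) (v := p j v)] at h6
        rw [SimpleGraph.dist_comm (u := p j v) (v := v)] at h7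
        omega
    · subst h
      obtain ⟨w2, hw21, hw22⟩ := star_walk huK hstar _ (yy v) hyK rfl
      rw [htg2]
      refine ⟨(W (p j v) (yy v)).append w2, fun _ _ => ?_⟩
      have h7 := hG.dist_triangle (u := p j v) (v := v) (w := yy v)
      rw [SimpleGraph.dist_comm (u := p j v) (v := v)] at h7
      have h8 := hrad (yy v) hyK
      refine ⟨?_, fun h => absurd h (lt_irrefl _), fun z hz => ?_⟩
      · rw [SimpleGraph.Walk.length_append, hW, hw21, hr]
        omega
      · rw [SimpleGraph.Walk.mem_support_append_iff] at hz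
        rcases hz with hz | hz
        · have h5 := Pool.Agent.H672.ct_drop _ hz
          rw [hW] at h5
          rw [mem_nbd]
          exact ⟨yy v, hyK, by omega⟩
        · rw [mem_nbd]
          exact ⟨z, hw22 z hz, by rw [SimpleGraph.dist_self]; omega⟩
  choose Wk hWk using hwalk
  -- the links of the exceptional vertices
  have hwalk2 : ∀ v : V, ∃ w : G.Walk v u, v ∈ A → w.length ≤ r1 * 2 ^ J + 1 ∧
      ∀ z ∈ w.support, z ∈ nbd G K 1 := by
    intro v
    by_cases hv : v ∈ A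
    swap
    · exact ⟨W v u, fun h => absurd h hv⟩
    obtain ⟨hyK, hvy⟩ := hyy v hv
    obtain ⟨w2, hw21, hw22⟩ := star_walk huK hstar _ (yy v) hyK rfl
    refine ⟨(W v (yy v)).append w2, fun _ => ⟨?_, fun z hz => ?_⟩⟩
    · have h8 := hrad (yy v) hyK
      rw [SimpleGraph.Walk.length_append, hW, hw21]
      omega
    · rw [SimpleGraph.Walk.mem_support_append_iff] at hz
      rcases hz with hz | hz
      · have h5 := Pool.Agent.H672.ct_drop _ hz
        rw [hW] at h5
        rw [mem_nbd]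
        exact ⟨yy v, hyK, by omega⟩
      · rw [mem_nbd]
        exact ⟨z, hw22 z hz, by rw [SimpleGraph.dist_self]; omega⟩
  choose We hWe using hwalk2
  obtain ⟨L, hL, hLe⟩ : ∃ L : ℕ → Finset V, (∀ j ≤ J, L j =
      (B.image (p j)).biUnion fun q => (Wk j q).support.toFinset) ∧
      L (J + 1) = (A \ F).biUnion fun v => (We v).support.toFinset :=
    ⟨fun j => if j ≤ J then (B.image (p j)).biUnion fun q => (Wk j q).support.toFinset
      else (A \ F).biUnion fun v => (We v).support.toFinset,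
      fun j hj => if_pos hj, if_neg (by omega)⟩
  have hmem : ∀ v ∈ B, ∀ j ≤ J, ∀ z ∈ (Wk j (p j v)).support, z ∈ L j := by
    intro v hv j hj z hz
    rw [hL j hj, mem_biUnion]
    exact ⟨p j v, mem_image_of_mem _ hv, List.mem_toFinset.2 hz⟩
  have hmeme : ∀ v ∈ A, v ∉ F → ∀ z ∈ (We v).support, z ∈ L (J + 1) := by
    intro v hv hvF z hz
    rw [hLe, mem_biUnion]
    exact ⟨v, mem_sdiff.2 ⟨hv, hvF⟩, List.mem_toFinset.2 hz⟩
  refine ⟨L, ?_, fun j hj => ⟨?_, (B.image (p j)).card, ?_, card_image_le.trans hBcard, ?_⟩, ?_, ?_, ?_⟩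
  · obtain ⟨v, hv⟩ := hAne
    by_cases hvF : v ∈ F
    · exact ⟨0, by omega, p 0 v, hmem v ((hB v).2 ⟨hv, hvF⟩) 0 (Nat.zero_le _) _
        (SimpleGraph.Walk.start_mem_support _)⟩
    · exact ⟨J + 1, le_rfl, v, hmeme v hv hvF _ (SimpleGraph.Walk.start_mem_support _)⟩
  · intro z hz
    rw [hL j hj, mem_biUnion] at hz
    obtain ⟨q, hq, hz⟩ := hz
    exact (hWk j q hj hq).2.2 z (List.mem_toFinset.1 hz)
  · rw [hL j hj, mul_comm]
    refine card_biUnion_le_card_mul _ _ _ fun q hq => ?_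
    refine (List.toFinset_card_le _).trans ?_
    rw [SimpleGraph.Walk.length_support]
    refine (hWk j q hj hq).1.trans (Nat.mul_le_mul_right _ (by omega))
  · intro q hq
    have hp2 : 2 ^ (j + 2) = 4 * 2 ^ j := by rw [pow_add]; ring
    have hp1 : 2 ^ (j + 1) = 2 * 2 ^ j := by rw [pow_add]; ring
    have hp0' : 1 ≤ 2 ^ j := Nat.one_le_two_pow
    have hsep : ∀ x ∈ B.image (p j), ∀ y ∈ B.image (p j), x ≠ y → 2 ^ j ≤ G.dist x y := by
      intro x hx y hy hxy
      obtain ⟨v, hv, rfl⟩ := mem_image.1 hx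
      obtain ⟨v', hv', rfl⟩ := mem_image.1 hy
      have hvF := ((hB v).1 hv).2
      have hvF' := ((hB v').1 hv').2
      rcases Nat.eq_zero_or_pos j with h | h
      · subst h
        rw [pow_zero]
        exact hG.pos_dist_of_ne hxy
      · obtain ⟨i, rfl⟩ : ∃ i, j = i + 1 := ⟨j - 1, by omega⟩
        refine hP (i + 1) _ ?_ _ ?_ hxy
        · rw [hps]; exact (hν (i + 1) _ (hpF i v hvF)).1
        · rw [hps]; exact (hν (i + 1) _ (hpF i v' hvF')).1
    have hmb : ∀ x z t, z ∈ ball G x t → G.dist x z ≤ t := fun x z t hz => (mem_filter.1 hz).2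
    have hdisj : ∀ x ∈ B.image (p j), ∀ y ∈ B.image (p j), x ≠ y →
        Disjoint (ball G x (2 ^ j / 4)) (ball G y (2 ^ j / 4)) := by
      intro x hx y hy hxy
      rw [Finset.disjoint_left]
      intro z hz1 hz2
      have h3 := hsep x hx y hy hxy
      have h4 := hmb _ _ _ hz1
      have h5 := hmb _ _ _ hz2
      have h6 := hG.dist_triangle (u := x) (v := z) (w := y)
      rw [SimpleGraph.dist_comm (u := z) (v := y)] at h6
      omega
    calc (B.image (p j)).card * q = ∑ _x ∈ B.image (p j), q := by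
          rw [sum_const, smul_eq_mul]
      _ ≤ ∑ x ∈ B.image (p j), (ball G x (2 ^ j / 4)).card := sum_le_sum fun x hx => by
          obtain ⟨v, hv, rfl⟩ := mem_image.1 hx
          exact hq _ (hpF j v ((hB v).1 hv).2)
      _ = ((B.image (p j)).biUnion fun x => ball G x (2 ^ j / 4)).card := by
          rw [card_biUnion hdisj]
      _ ≤ (nbd G K (2 ^ (j + 2))).card := by
          refine card_le_card fun z hz => ?_
          rw [mem_biUnion] at hz
          obtain ⟨x, hx, hz⟩ := hz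
          obtain ⟨v, hvB, rfl⟩ := mem_image.1 hx
          obtain ⟨hv, hvF⟩ := (hB v).1 hvB
          obtain ⟨hyK, hvy⟩ := hyy v hv
          have h4 := hmb _ _ _ hz
          have h5 := hdist j v hvF
          have h6 := hG.dist_triangle (u := z) (v := p j v) (w := yy v)
          have h7 := hG.dist_triangle (u := p j v) (v := v) (w := yy v)
          rw [SimpleGraph.dist_comm (u := z) (v := p j v)] at h6
          rw [SimpleGraph.dist_comm (u := p j v) (v := v)] at h7
          rw [mem_nbd]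
          exact ⟨yy v, hyK, by omega⟩
  · intro z hz
    rw [hLe, mem_biUnion] at hz
    obtain ⟨v, hv, hz⟩ := hz
    exact (hWe v (mem_sdiff.1 hv).1).2 z (List.mem_toFinset.1 hz)
  · rw [hLe, mul_comm]
    refine card_biUnion_le_card_mul _ _ _ fun v hv => ?_
    refine (List.toFinset_card_le _).trans ?_
    rw [SimpleGraph.Walk.length_support]
    have h3 := (hWe v (mem_sdiff.1 hv).1).1
    have hp0' : 1 ≤ 2 ^ J := Nat.one_le_two_pow
    have hr : (r1 + 3) * 2 ^ J = r1 * 2 ^ J + 3 * 2 ^ J := by ring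
    omega
  · intro f I hI hf v hv
    have h2J : (1 : ℝ) ≤ 2 ^ J := one_le_pow₀ (by norm_num)
    have h24 : (2 : ℝ) ^ J ≤ 4 ^ J := pow_le_pow_left₀ (by norm_num) (by norm_num) J
    by_cases hvF : v ∈ F
    swap
    · obtain ⟨s1, s2⟩ := Pool.Agent.H672.ct_walk (hf (J + 1) le_rfl) (We v) (hmeme v hv hvF)
      have h3 := (hWe v hv).1
      have h4 : ((We v).length : ℝ) ≤ r1 * 2 ^ J + 1 := by exact_mod_cast h3
      have h5 : ((We v).length : ℝ) * (I / 4 ^ (J + 1)) ≤ ((r1 : ℝ) + 1) * I := by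
        have h6 : ((We v).length : ℝ) ≤ ((r1 : ℝ) + 1) * 4 ^ (J + 1) := by
          have h7 : (4 : ℝ) ^ (J + 1) = 4 * 4 ^ J := by rw [pow_succ]; ring
          have h8 : (0 : ℝ) ≤ r1 := Nat.cast_nonneg _
          rw [h7]
          nlinarith
        calc ((We v).length : ℝ) * (I / 4 ^ (J + 1)) ≤ ((r1 : ℝ) + 1) * 4 ^ (J + 1) * (I / 4 ^ (J + 1)) :=
              mul_le_mul_of_nonneg_right h6 (by positivity)
          _ = ((r1 : ℝ) + 1) * I := by field_simp
      constructor <;> nlinarith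
    have hvB : v ∈ B := (hB v).2 ⟨hv, hvF⟩
    have hstep : ∀ j ≤ J, f (p j v) - f (tg j (p j v)) ≤
        ((Wk j (p j v)).length : ℝ) * (I / 4 ^ j) ∧
        f (tg j (p j v)) - f (p j v) ≤ ((Wk j (p j v)).length : ℝ) * (I / 4 ^ j) := by
      intro j hj
      exact Pool.Agent.H672.ct_walk (hf j (by omega)) (Wk j (p j v)) (hmem v hvB j hj)
    have hsum : ∀ j ≤ J, f v - f (p j v) ≤ 4 * I * (1 - 1 / 2 ^ j) ∧
        f (p j v) - f v ≤ 4 * I * (1 - 1 / 2 ^ j) := by
      intro j
      induction j with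
      | zero => intro _; rw [hp0]; simp
      | succ j ih =>
        intro hj
        obtain ⟨i1, i2⟩ := ih (by omega)
        obtain ⟨s1, s2⟩ := hstep j (by omega)
        have h5 := (hWk j (p j v) (by omega) (mem_image_of_mem _ hvB)).2.1 (by omega)
        have et : f (tg j (p j v)) = f (p (j + 1) v) := by rw [htg1 j _ (by omega), ← hps]
        rw [et] at s1 s2
        have h3 : ((Wk j (p j v)).length : ℝ) ≤ 2 * 2 ^ j := by exact_mod_cast h5
        have h6 : ((Wk j (p j v)).length : ℝ) * (I / 4 ^ j) ≤ 2 * I / 2 ^ j := by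
          have h7 : (4 : ℝ) ^ j = 2 ^ j * 2 ^ j := by
            rw [← mul_pow]; norm_num
          calc ((Wk j (p j v)).length : ℝ) * (I / 4 ^ j) ≤ 2 * 2 ^ j * (I / 4 ^ j) :=
                mul_le_mul_of_nonneg_right h3 (by positivity)
            _ = 2 * I / 2 ^ j := by rw [h7]; field_simp
        have h8 : 4 * I * (1 - 1 / 2 ^ (j + 1)) = 4 * I * (1 - 1 / 2 ^ j) + 2 * I / 2 ^ j := by
          rw [pow_succ]; field_simp; ring
        rw [h8]
        constructor <;> linarith
    obtain ⟨i1, i2⟩ := hsum J le_rfl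
    obtain ⟨s1, s2⟩ := hstep J le_rfl
    have h9 := (hWk J (p J v) le_rfl (mem_image_of_mem _ hvB)).1
    have et : f (tg J (p J v)) = f u := by rw [htg2]
    rw [et] at s1 s2
    have h3 : ((Wk J (p J v)).length : ℝ) * (I / 4 ^ J) ≤ ((r1 : ℝ) + 2) * I := by
      have h5 : (Wk J (p J v)).length ≤ (r1 + 2) * 2 ^ J := by omega
      have h6 : ((Wk J (p J v)).length : ℝ) ≤ ((r1 : ℝ) + 2) * 4 ^ J := by
        have h8 : ((Wk J (p J v)).length : ℝ) ≤ ((r1 : ℝ) + 2) * 2 ^ J := by exact_mod_cast h5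
        exact h8.trans (mul_le_mul_of_nonneg_left h24 (by positivity))
      calc ((Wk J (p J v)).length : ℝ) * (I / 4 ^ J) ≤ ((r1 : ℝ) + 2) * 4 ^ J * (I / 4 ^ J) :=
            mul_le_mul_of_nonneg_right h6 (by positivity)
        _ = ((r1 : ℝ) + 2) * I := by field_simp
    have h4 : 4 * I * (1 - 1 / 2 ^ J) ≤ 4 * I := by
      have h5 : (0 : ℝ) ≤ 1 / 2 ^ J := by positivity
      nlinarith
    constructor <;> nlinarith

end Pool.Agent.H578.CE
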